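import Mathlib
import Pool.Agent.Helper35.PI.St4

namespace Helper43.PI

open Helper35.PI
open scoped ContDiff Manifold Topology ENNReal BigOperators
open MeasureTheory Set Filter

theorem hDA2 : StDA2 := by
  intro n N M _ _ F R C hC hE
  set a : ℝ≥0∞ := ENNReal.ofReal ((4 * Real.pi * 1) ^ (-(n : ℝ) / 2)) with ha
  have ha0 : a ≠ 0 := by
    rw [ha]
    have : 0 < (4 * Real.pi * 1) ^ (-(n : ℝ) / 2) := Real.rpow_pos_of_pos (by positivity) _
    exact (ENNReal.ofReal_pos.mpr this).ne'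
  set b : ℝ≥0∞ := ENNReal.ofReal (Real.exp (-R ^ 2 / 4)) with hb
  have hb0 : b ≠ 0 := (ENNReal.ofReal_pos.mpr (Real.exp_pos _)).ne'
  have hat : a ≠ ⊤ := ENNReal.ofReal_ne_top
  have hbt : b ≠ ⊤ := ENNReal.ofReal_ne_top
  refine ⟨C / (a * b), ENNReal.div_ne_top hC (mul_ne_zero ha0 hb0), ?_⟩
  intro t ht
  have h := hE t ht 0 1 one_pos
  unfold gaussArea at h
  set f : EE N → ℝ≥0∞ := fun x => (((fun q => F q t) ⁻¹' {x}).encard : ℝ≥0∞) with hf
  set g : EE N → ℝ≥0∞ := fun x => ENNReal.ofReal (Real.exp (-‖x - 0‖ ^ 2 / (4 * 1))) with hg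
  have h' : a * (∫⁻ x, f x * g x ∂μH[(n : ℝ)]) ≤ C := h
  have h1 : b * ∫⁻ x in Metric.closedBall (0 : EE N) R, f x ∂μH[(n : ℝ)]
      ≤ ∫⁻ x in Metric.closedBall (0 : EE N) R, b * f x ∂μH[(n : ℝ)] :=
    lintegral_const_mul_le _ _
  have h2 : ∫⁻ x in Metric.closedBall (0 : EE N) R, b * f x ∂μH[(n : ℝ)]
      ≤ ∫⁻ x in Metric.closedBall (0 : EE N) R, f x * g x ∂μH[(n : ℝ)] := by
    refine setLIntegral_mono' Metric.isClosed_closedBall.measurableSet ?_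
    intro x hx
    rw [mul_comm]
    refine mul_le_mul_right ?_ _
    rw [hb, hg]
    refine ENNReal.ofReal_le_ofReal (Real.exp_le_exp.mpr ?_)
    rw [mem_closedBall_zero_iff] at hx
    have hx2 : ‖x - 0‖ ^ 2 ≤ R ^ 2 := by
      rw [sub_zero]
      exact pow_le_pow_left₀ (norm_nonneg x) hx 2
    rw [mul_one]
    linarith [div_le_div_of_nonneg_right (neg_le_neg hx2) (by norm_num : (0:ℝ) ≤ 4)]
  have h3 : ∫⁻ x in Metric.closedBall (0 : EE N) R, f x * g x ∂μH[(n : ℝ)]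
      ≤ ∫⁻ x, f x * g x ∂μH[(n : ℝ)] := setLIntegral_le_lintegral _ _
  have h4 : (∫⁻ x in Metric.closedBall (0 : EE N) R, f x ∂μH[(n : ℝ)]) * (a * b) ≤ C := by
    calc (∫⁻ x in Metric.closedBall (0 : EE N) R, f x ∂μH[(n : ℝ)]) * (a * b)
        = a * (b * ∫⁻ x in Metric.closedBall (0 : EE N) R, f x ∂μH[(n : ℝ)]) := by ring
      _ ≤ a * (∫⁻ x, f x * g x ∂μH[(n : ℝ)]) := by
          gcongr
          exact h1.trans (h2.trans h3)
      _ ≤ C := h'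
  exact (ENNReal.le_div_iff_mul_le (Or.inl (mul_ne_zero ha0 hb0))
    (Or.inl (ENNReal.mul_ne_top hat hbt))).mpr h4

end Helper43.PI
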